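import Pool.Agent.Lib.GR3.Stmts

/-!
# Trees of radius three in triangle-free graphs: simple lemmas
-/

set_option autoImplicit false

namespace Pool.Agent.Lib.GR3

open Finset Classical

variable {V : Type}

lemma mem_nb {E : Env V} {S : Set V} {u v : V} : u ∈ nb E S v ↔ u ∈ S ∧ E.G.Adj v u := by
  unfold nb
  rw [Finset.mem_filter, E.mem_fib]
  constructor
  · exact fun h => h.2
  · exact fun h => ⟨(E.adj_c v u h.2).symm, h⟩

lemma mem_fib' {E : Env V} {n : ℕ} {v : V} : v ∈ E.fib n ↔ E.c v = n := E.mem_fib n v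

lemma nb_mono {E : Env V} {S T : Set V} (h : S ⊆ T) (v : V) : nb E S v ⊆ nb E T v := by
  intro u hu
  rw [mem_nb] at hu ⊢
  exact ⟨h hu.1, hu.2⟩

lemma nb_card_mono {E : Env V} {S T : Set V} (h : S ⊆ T) (v : V) :
    (nb E S v).card ≤ (nb E T v).card := card_le_card (nb_mono h v)

lemma nb_union {E : Env V} {S T : Set V} (v : V) : nb E (S ∪ T) v = nb E S v ∪ nb E T v := by
  ext u
  simp only [mem_nb, Finset.mem_union, Set.mem_union]
  tauto

lemma nb_ne {E : Env V} {S : Set V} {v : V} : nb E S v ≠ ∅ ↔ ∃ u ∈ S, E.G.Adj v u := by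
  rw [← Finset.nonempty_iff_ne_empty]
  constructor
  · rintro ⟨u, hu⟩
    rw [mem_nb] at hu
    exact ⟨u, hu.1, hu.2⟩
  · rintro ⟨u, h1, h2⟩
    exact ⟨u, mem_nb.2 ⟨h1, h2⟩⟩

lemma nb_empty {E : Env V} {S : Set V} {v : V} : nb E S v = ∅ ↔ ∀ u ∈ S, ¬ E.G.Adj v u := by
  constructor
  · intro h u hu ha
    exact nb_ne.2 ⟨u, hu, ha⟩ h
  · intro h
    by_contra hne
    obtain ⟨u, hu, ha⟩ := nb_ne.1 hne
    exact h u hu ha

/-! ### Colourings -/

lemma Cl.mono {E : Env V} {A B : Set V} {n m : ℕ} (h : Cl E B n) (hA : A ⊆ B) (hn : n ≤ m) :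
    Cl E A m := by
  obtain ⟨f, h1, h2⟩ := h
  exact ⟨f, fun v hv => (h1 v (hA hv)).trans_le hn, fun u hu v hv => h2 u (hA hu) v (hA hv)⟩

lemma cl_union {E : Env V} {A B : Set V} {n m : ℕ} (hA : Cl E A n) (hB : Cl E B m) :
    Cl E (A ∪ B) (n + m) := by
  obtain ⟨f, f1, f2⟩ := hA
  obtain ⟨g, g1, g2⟩ := hB
  refine ⟨fun v => if v ∈ A then f v else n + g v, fun v hv => ?_, fun u hu v hv ha => ?_⟩
  · by_cases h : v ∈ A
    · simp only [h, if_true]
      exact (f1 v h).trans_le (Nat.le_add_right _ _)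
    · simp only [h, if_false]
      exact Nat.add_lt_add_left (g1 v (hv.resolve_left h)) n
  · by_cases h : u ∈ A <;> by_cases h' : v ∈ A
    · simp only [h, h', if_true]
      exact f2 u h v h' ha
    · simp only [h, h', if_true, if_false]
      have := f1 u h
      omega
    · simp only [h, h', if_true, if_false]
      have := f1 v h'
      omega
    · simp only [h, h', if_false]
      have := g2 u (hu.resolve_left h) v (hv.resolve_left h') ha
      omega

lemma Sm.mono {E : Env V} {A B : Set V} (h : Sm E B) (hA : A ⊆ B) : Sm E A := by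
  obtain ⟨n, hn⟩ := h
  exact ⟨n, hn.mono hA le_rfl⟩

lemma sm_union {E : Env V} {A B : Set V} (hA : Sm E A) (hB : Sm E B) : Sm E (A ∪ B) := by
  obtain ⟨n, hn⟩ := hA
  obtain ⟨m, hm⟩ := hB
  exact ⟨n + m, cl_union hn hm⟩

/-- To prove that `W` is small, split it into two parts. -/
lemma sm_split {E : Env V} {W A B : Set V} (hA : Sm E A) (hB : Sm E B)
    (h : ∀ x ∈ W, x ∈ A ∨ x ∈ B) : Sm E W := (sm_union hA hB).mono fun x hx => h x hx

/-- A big set stays big after removing a small set. -/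
lemma big_diff {E : Env V} {W A : Set V} (hW : ¬ Sm E W) (hA : Sm E A) :
    ¬ Sm E {x | x ∈ W ∧ x ∉ A} := fun h => hW (sm_split hA h fun x hx => by
  by_cases hx' : x ∈ A
  · exact Or.inl hx'
  · exact Or.inr ⟨hx, hx'⟩)

/-- A big set stays big after removing the small set of the points with the property `P`. -/
lemma big_sep {E : Env V} {W : Set V} {P : V → Prop} (hW : ¬ Sm E W)
    (hP : Sm E {x | x ∈ W ∧ P x}) : ¬ Sm E {x | x ∈ W ∧ ¬ P x} :=
  fun h => hW (sm_split hP h fun x hx => by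
    by_cases hx' : P x
    · exact Or.inl ⟨hx, hx'⟩
    · exact Or.inr ⟨hx, hx'⟩)

lemma cl_stb {E : Env V} {A : Set V} (h : Stb E A) : Cl E A 1 :=
  ⟨fun _ => 0, fun _ _ => Nat.one_pos, fun u hu v hv ha => (h u hu v hv ha).elim⟩

lemma cl_singleton {E : Env V} (s : V) : Cl E {x | x = s} 1 := by
  refine cl_stb ?_
  rintro u hu v hv ha
  have h1 : u = s := hu
  have h2 : v = s := hv
  rw [h1, h2] at ha
  exact ha.ne rfl

lemma sm_empty {E : Env V} : Sm E (∅ : Set V) := ⟨0, fun _ => 0, fun _ h => h.elim, fun _ h => h.elim⟩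

lemma big_nonempty {E : Env V} {W : Set V} (hW : ¬ Sm E W) : W.Nonempty := by
  by_contra h
  rw [Set.not_nonempty_iff_eq_empty] at h
  rw [h] at hW
  exact hW sm_empty

/-- Finite unions of small sets. -/
lemma sm_biUnion {E : Env V} {ι : Type} (s : Finset ι) (A : ι → Set V)
    (h : ∀ i ∈ s, Sm E (A i)) : Sm E {x | ∃ i ∈ s, x ∈ A i} := by
  classical
  induction s using Finset.induction_on with
  | empty => exact sm_empty.mono fun x hx => by simp at hx
  | insert i s hi ih =>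
    refine sm_split (h i (Finset.mem_insert_self i s))
      (ih fun j hj => h j (Finset.mem_insert_of_mem hj)) ?_
    rintro x ⟨j, hj, hx⟩
    rcases Finset.mem_insert.1 hj with rfl | hj
    · exact Or.inl hx
    · exact Or.inr ⟨j, hj, hx⟩

/-- Uniform finite unions. -/
lemma cl_biUnion {E : Env V} {ι : Type} (s : Finset ι) (A : ι → Set V) (n : ℕ)
    (h : ∀ i ∈ s, Cl E (A i) n) : Cl E {x | ∃ i ∈ s, x ∈ A i} (s.card * n) := by
  classical
  induction s using Finset.induction_on with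
  | empty =>
    exact ⟨fun _ => 0, fun x hx => by simp at hx, fun x hx => by simp at hx⟩
  | insert i s hi ih =>
    have h1 := cl_union (h i (Finset.mem_insert_self i s))
      (ih fun j hj => h j (Finset.mem_insert_of_mem hj))
    refine h1.mono ?_ ?_
    · rintro x ⟨j, hj, hx⟩
      rcases Finset.mem_insert.1 hj with rfl | hj
      · exact Or.inl hx
      · exact Or.inr ⟨j, hj, hx⟩
    · rw [Finset.card_insert_of_notMem hi]
      exact le_of_eq (by ring)

/-- Pigeonhole: one of finitely many classes of a big set is big. -/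
lemma big_class {E : Env V} {W : Set V} (hW : ¬ Sm E W) (n : ℕ) (f : V → ℕ)
    (hf : ∀ v ∈ W, f v < n) : ∃ i < n, ¬ Sm E {v | v ∈ W ∧ f v = i} := by
  by_contra h
  push Not at h
  refine hW ((sm_biUnion (Finset.range n) (fun i => {v | v ∈ W ∧ f v = i}) fun i hi =>
    h i (Finset.mem_range.1 hi)).mono fun v hv => ?_)
  exact ⟨f v, Finset.mem_range.2 (hf v hv), hv, rfl⟩

/-- If a bounded colouring has no edge with the property `R` inside a class then one may pass to a
big subset without `R`-edges. -/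
lemma big_free {E : Env V} {W : Set V} (hW : ¬ Sm E W) (n : ℕ) (f : V → ℕ)
    (hf : ∀ v ∈ W, f v < n) (R : V → V → Prop)
    (h : ∀ u ∈ W, ∀ v ∈ W, E.G.Adj u v → R u v → f u ≠ f v) :
    ∃ W' ⊆ W, ¬ Sm E W' ∧ ∀ u ∈ W', ∀ v ∈ W', E.G.Adj u v → ¬ R u v := by
  obtain ⟨i, -, hi⟩ := big_class hW n f hf
  exact ⟨_, fun v hv => hv.1, hi, fun u hu v hv ha hR => h u hu.1 v hv.1 ha hR (hu.2.trans hv.2.symm)⟩

/-- Bounded degree (needs module `Deg`). -/
lemma cl_deg (hD : StDeg) {E : Env V} {A : Set V} {d : ℕ} (h : ∀ u ∈ A, (nb E A u).card ≤ d) :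
    Cl E A (2 * d + 1) := by
  obtain ⟨f, f1, f2⟩ := hD d V E A (fun _ _ => True) (fun u hu => by simpa using h u hu)
  exact ⟨f, fun v _ => f1 v, fun u hu v hv ha => f2 u hu v hv ha trivial⟩

/-- The law in the convenient form (needs module `Deg`). -/
lemma sm_law (hD : StDeg) {E : Env V} {k D : ℕ} {L : ℕ → ℕ} (hB : Base E k D L) (K : ℕ)
    (S : Set V) : Cl E {v | 1 ≤ (nb E S v).card ∧ (nb E S v).card ≤ K} (L K + (2 * K + 1)) := by
  have h1 : Cl E {v | v ∈ S ∧ (nb E S v).card ≤ K} (2 * K + 1) := by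
    refine cl_deg hD fun u hu => (nb_card_mono (fun v hv => hv.1) u).trans hu.2
  refine (cl_union (hB.law K S) h1).mono ?_ le_rfl
  rintro v ⟨hv1, hv2⟩
  by_cases h : v ∈ S
  · exact Or.inr ⟨h, hv2⟩
  · exact Or.inl ⟨h, hv1, hv2⟩

/-- Few vertices see a sparse set (needs module `Deg`). -/
lemma cl_spr (hD : StDeg) {E : Env V} {k D : ℕ} {L : ℕ → ℕ} (hB : Base E k D L) {n : ℕ}
    {S : Set V} (hS : Spr E S n) : Cl E {v | nb E S v ≠ ∅} (L n + (2 * n + 1)) :=
  (sm_law hD hB n S).mono (fun v hv => ⟨Finset.card_pos.2 (Finset.nonempty_iff_ne_empty.2 hv),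
    hS v⟩) le_rfl

/-! ### Subsets -/

lemma Stb.mono {E : Env V} {M M' : Set V} (h : Stb E M) (hM : M' ⊆ M) : Stb E M' :=
  fun u hu v hv => h u (hM hu) v (hM hv)

lemma Star.mono {E : Env V} {M M' : Set V} {k C : ℕ} (h : Star E M k C) (hM : M' ⊆ M) :
    Star E M' k C := by
  intro z x hx
  obtain ⟨i, hi⟩ := h z x hx
  exact ⟨i, (card_le_card (Finset.filter_subset_filter _ (nb_mono hM (x i)))).trans_lt hi⟩

lemma Hb.mono {E : Env V} {k D : ℕ} {L : ℕ → ℕ} {M M' : Set V} {C : ℕ} (h : Hb E k D L M C)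
    (hM : M' ⊆ M) : Hb E k D L M' C :=
  ⟨h.base, h.C1, h.stb.mono hM, h.star.mono hM⟩

lemma Lab.mono {E : Env V} {W W' : Set V} {q ρ b : ℕ} {Li : Fin q → V → V} {Ra : Fin ρ → V → V}
    {I : Fin ρ → Fin q → Prop} (h : Lab E W q ρ b Li Ra I) (hW : W' ⊆ W) :
    Lab E W' q ρ b Li Ra I where
  q1 := h.q1
  fibL := fun x hx => h.fibL x (hW hx)
  edge := fun x hx y hy => h.edge x (hW hx) y (hW hy)
  noL := fun x hx y hy => h.noL x (hW hx) y (hW hy)
  noR := fun x hx y hy => h.noR x (hW hx) y (hW hy)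
  ne := h.ne
  her := fun a i hI W2 hW2 K => h.her a i hI W2 (hW2.trans hW) K
  bd := fun z i => (card_le_card (Finset.image_subset_image (nb_mono hW z))).trans (h.bd z i)

/-- Hubs see no hubs. -/
lemma Hb.nb_hub {E : Env V} {k D : ℕ} {L : ℕ → ℕ} {M : Set V} {C : ℕ} (h : Hb E k D L M C)
    {m : V} (hm : m ∈ M) : nb E M m = ∅ := nb_empty.2 fun u hu => h.stb m hm u hu

end Pool.Agent.Lib.GR3
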