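import Mathlib
import Pool.Agent.Lib.GIT.Defs

/-!
# Trees of radius three in triangle-free graphs: definitions

The graph is infinite with finite fibres (the disjoint union of a sequence of finite graphs).
Small means finitely colourable.  The proof is in the note `gsint_helper93_2`.
-/

set_option autoImplicit false

namespace Pool.Agent.Lib.GR3

open Finset Classical

/-- A graph whose edges lie in finite fibres. -/
structure Env (V : Type) where
  G : SimpleGraph V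
  c : V → ℕ
  fib : ℕ → Finset V
  mem_fib : ∀ n v, v ∈ fib n ↔ c v = n
  adj_c : ∀ u v, G.Adj u v → c u = c v

/-- The neighbours of `v` in `S`. -/
noncomputable def nb {V : Type} (E : Env V) (S : Set V) (v : V) : Finset V :=
  (E.fib (E.c v)).filter (fun u => u ∈ S ∧ E.G.Adj v u)

/-- The induced graph on `A` is `n`-colourable. -/
def Cl {V : Type} (E : Env V) (A : Set V) (n : ℕ) : Prop :=
  ∃ f : V → ℕ, (∀ v ∈ A, f v < n) ∧ ∀ u ∈ A, ∀ v ∈ A, E.G.Adj u v → f u ≠ f v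

/-- Small sets: finitely colourable. -/
def Sm {V : Type} (E : Env V) (A : Set V) : Prop := ∃ n : ℕ, Cl E A n

/-- Stable sets. -/
def Stb {V : Type} (E : Env V) (A : Set V) : Prop := ∀ u ∈ A, ∀ v ∈ A, ¬ E.G.Adj u v

/-- Sparse sets. -/
def Spr {V : Type} (E : Env V) (S : Set V) (n : ℕ) : Prop := ∀ z, (nb E S z).card ≤ n

/-- Three levels of an induced tree below `s` (the other non-adjacencies follow if there are no
triangles). -/
structure T3 {V : Type} (G : SimpleGraph V) (k : ℕ) (s : V) (m : Fin k → V)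
    (x : Fin k → Fin k → V) (w : Fin k → Fin k → Fin k → V) : Prop where
  sm : ∀ i, G.Adj s (m i)
  mx : ∀ i j, G.Adj (m i) (x i j)
  xw : ∀ i j l, G.Adj (x i j) (w i j l)
  sw : ∀ i j l, ¬ G.Adj s (w i j l)
  mx' : ∀ i i' j, i ≠ i' → ¬ G.Adj (m i) (x i' j)
  mw : ∀ i i' j l, i ≠ i' → ¬ G.Adj (m i) (w i' j l)
  xx : ∀ i i' j j', i ≠ i' → ¬ G.Adj (x i j) (x i' j')
  xw' : ∀ i i' j j' l, (i, j) ≠ (i', j') → ¬ G.Adj (x i j) (w i' j' l)
  ww : ∀ i i' j j' l l', (i, j) ≠ (i', j') → ¬ G.Adj (w i j l) (w i' j' l')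
  winj : ∀ i j l l', w i j l = w i j l' → l = l'

/-- The standing assumptions: no triangles, bounded VC dimension, the zero-infinity law, no
induced tree. -/
structure Base {V : Type} (E : Env V) (k D : ℕ) (L : ℕ → ℕ) : Prop where
  k2 : 2 ≤ k
  tri : ∀ a b c, E.G.Adj a b → E.G.Adj b c → ¬ E.G.Adj a c
  vc : GIT.VC E.G D
  law : ∀ (M : ℕ) (S : Set V), Cl E {v | v ∉ S ∧ 1 ≤ (nb E S v).card ∧ (nb E S v).card ≤ M} (L M)
  no3 : ∀ s m x w, ¬ T3 E.G k s m x w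

/-- `S` is a cover of `Y` by vertices of `U` of minimal cost `b |S| + |uncovered|`. -/
structure MC {V : Type} (E : Env V) (Y U S : Set V) (b : ℕ) : Prop where
  sub : S ⊆ U
  exch : ∀ (n : ℕ) (A X : Finset V), (∀ a ∈ A, a ∈ S ∧ E.c a = n) →
    (∀ x ∈ X, x ∈ U ∧ E.c x = n) →
      b * A.card ≤ b * X.card + ((E.fib n).filter (fun y => y ∈ Y ∧ nb E S y ≠ ∅ ∧
        nb E S y ⊆ A ∧ ∀ x ∈ X, ¬ E.G.Adj y x)).card
  unc : ∀ z ∈ U, ((nb E Y z).filter (fun y => nb E S y = ∅)).card ≤ b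

/-- No vertex has `k` neighbours with private parts of size at least `C` in `M`. -/
def Star {V : Type} (E : Env V) (M : Set V) (k C : ℕ) : Prop :=
  ∀ (z : V) (x : Fin k → V), (∀ i, E.G.Adj z (x i)) →
    ∃ i, ((nb E M (x i)).filter (fun m => ∀ l, l ≠ i → ¬ E.G.Adj (x l) m)).card < C

/-- `M` is a hub set. -/
structure Hb {V : Type} (E : Env V) (k D : ℕ) (L : ℕ → ℕ) (M : Set V) (C : ℕ) : Prop where
  base : Base E k D L
  C1 : 1 ≤ C
  stb : Stb E M
  star : Star E M k C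

/-- `S` is a sparse cover of `M` by vertices of `W`. -/
structure SC {V : Type} (E : Env V) (M W S : Set V) (n1 b1 : ℕ) : Prop where
  sub : S ⊆ W
  few : Spr E S n1
  unc : ∀ z ∈ W, ((nb E M z).filter (fun m => nb E S m = ∅)).card ≤ b1
  exch : ∀ (n : ℕ) (A X : Finset V), (∀ a ∈ A, a ∈ S ∧ E.c a = n) →
    (∀ x ∈ X, x ∈ W ∧ E.c x = n) →
      (∀ s ∈ A, 2 * ((nb E M s).filter (fun m => ∀ x ∈ X, ¬ E.G.Adj x m)).card ≤ b1) →
        A.card ≤ 2 * X.card

/-- Laws `ρ s`, `s ∈ S`, on the hubs of `s` with small atoms, such that the vertices of `W` see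
mass at most `B0` altogether. -/
structure Thin {V : Type} (E : Env V) (M W S : Set V) (ρ : V → V → ℝ) (C2 : ℕ) (B0 : ℝ) :
    Prop where
  nn : ∀ s m, 0 ≤ ρ s m
  sup : ∀ s m, ρ s m ≠ 0 → m ∈ nb E M s
  one : ∀ s ∈ S, ∑ m ∈ nb E M s, ρ s m = 1
  atm : ∀ s m, ρ s m * C2 ≤ 1
  thin : ∀ x ∈ W, ∑ s ∈ (E.fib (E.c x)).filter (fun s => s ∈ S), ∑ m ∈ nb E M x, ρ s m ≤ B0

/-- A law on the vertices of `W` in the fibre `n`. -/
structure Nu {V : Type} (E : Env V) (W : Set V) (n : ℕ) (ν : V → ℝ) : Prop where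
  nn : ∀ x, 0 ≤ ν x
  sup : ∀ x, ν x ≠ 0 → x ∈ W ∧ E.c x = n
  one : ∑ x ∈ E.fib n, ν x = 1

/-- The mass of the neighbourhood of `m`. -/
noncomputable def tm {V : Type} (E : Env V) (ν : V → ℝ) (m : V) : ℝ :=
  ∑ x ∈ nb E Set.univ m, ν x

/-- `th` is the `C`-th smallest value of `t` on `A`. -/
def Ord {V : Type} (t : V → ℝ) (A : Finset V) (C : ℕ) (th : ℝ) : Prop :=
  (A.filter (fun m => t m < th)).card < C ∧ C ≤ (A.filter (fun m => t m ≤ th)).card

/-- The vertices `a ∈ A` of `S` cover all but `e` hubs of `x`. -/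
def Cv {V : Type} (E : Env V) (M S : Set V) (e : ℕ) (x : V) (A : Finset V) : Prop :=
  (∀ a ∈ A, a ∈ S ∧ E.c a = E.c x) ∧ ((nb E M x).filter (fun m => ∀ a ∈ A, ¬ E.G.Adj a m)).card ≤ e

/-- The union of the covers of `x` of size `r`. -/
noncomputable def Lb {V : Type} (E : Env V) (M S : Set V) (r e : ℕ) (x : V) : Finset V :=
  (E.fib (E.c x)).filter (fun s => ∃ A : Finset V, A.card = r ∧ Cv E M S e x A ∧ s ∈ A)

/-- The bounded case: all `x ∈ W` have a cover of size `r`, and no smaller cover, even with `K`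
exceptions. -/
structure Cx {V : Type} (E : Env V) (M S W : Set V) (n2 r e K : ℕ) : Prop where
  spr : Spr E S n2
  cov : ∀ x ∈ W, ∃ A : Finset V, A.card = r ∧ Cv E M S e x A
  noc : ∀ x ∈ W, ∀ A : Finset V, A.card < r → ¬ Cv E M S K x A

/-- Labels `Li i x` of `x ∈ W` and labels `Ra a x` of the neighbourhoods. -/
structure Lab {V : Type} (E : Env V) (W : Set V) (q ρ b : ℕ) (Li : Fin q → V → V)
    (Ra : Fin ρ → V → V) (I : Fin ρ → Fin q → Prop) : Prop where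
  q1 : 1 ≤ q
  fibL : ∀ x ∈ W, ∀ i, E.c (Li i x) = E.c x
  edge : ∀ x ∈ W, ∀ y ∈ W, E.G.Adj x y → ∀ i, ∃ a, Li i y = Ra a x
  noL : ∀ x ∈ W, ∀ y ∈ W, E.G.Adj x y → ∀ i, Li i x ≠ Li i y
  noR : ∀ x ∈ W, ∀ y ∈ W, E.G.Adj x y → ∀ a, Ra a x ≠ Ra a y
  ne : ∀ a, ∃ i, I a i
  her : ∀ a i, I a i → ∀ W' ⊆ W, ∀ K : ℕ,
    Sm E {w | w ∈ W' ∧ ((nb E W' w).filter (fun x => Li i x = Ra a w)).card < K}
  bd : ∀ z i, ((nb E W z).image (Li i)).card ≤ b

end Pool.Agent.Lib.GR3
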