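import Pool.Agent.Lib.GR3.Defs

/-!
# Trees of radius three in triangle-free graphs: statements of the modules
-/

set_option autoImplicit false

namespace Pool.Agent.Lib.GR3

open Finset Classical

/-! ### Colourings -/

/-- Module `Deg`: bounded outdegree. -/
def StDeg : Prop :=
  ∀ (d : ℕ) (V : Type) (E : Env V) (A : Set V) (R : V → V → Prop),
    (∀ u ∈ A, ((nb E A u).filter (fun v => R u v)).card ≤ d) →
      ∃ f : V → ℕ, (∀ v, f v < 2 * d + 1) ∧ ∀ u ∈ A, ∀ v ∈ A, E.G.Adj u v → R u v → f u ≠ f v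

/-- Module `Uni`: uniform colourability from transversals. -/
def StUni : Prop :=
  ∀ (V : Type) (E : Env V) (A : V → Set V), (∀ s, ∀ x ∈ A s, E.c x = E.c s) →
    (∀ σ : ℕ → V, Sm E {x | E.c (σ (E.c x)) = E.c x ∧ x ∈ A (σ (E.c x))}) →
      ∃ n : ℕ, ∀ s, Cl E (A s) n

/-- Module `Fcl`: if all fibres of `g` are uniformly colourable there is a bounded colouring of `A`
whose classes contain no edge inside a fibre. -/
def StFcl : Prop :=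
  ∀ (n : ℕ) (V Λ : Type) (E : Env V) (A : Set V) (g : V → Λ),
    (∀ l, Cl E {x | x ∈ A ∧ g x = l} n) →
      ∃ f : V → ℕ, (∀ v ∈ A, f v < n) ∧ ∀ u ∈ A, ∀ v ∈ A, E.G.Adj u v → g u = g v → f u ≠ f v

/-! ### Nets -/

/-- Module `Tool`: `k` configurations without conflicts, or bounded nets. -/
def StTool : Prop :=
  ∀ D k N N' : ℕ, ∃ t : ℕ, ∀ (V : Type) (E : Env V), GIT.VC E.G D →
    ∀ (Γ : Type) (Cf : Finset Γ) (a : Γ → Fin N → V) (q : Γ → Fin N' → V) (Y : Fin N → Finset V),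
      (∃ c : Fin k → Γ, (∀ i, c i ∈ Cf) ∧ ∀ i i', i ≠ i' → ∀ j j', q (c i') j' ∈ Y j →
        ¬ E.G.Adj (a (c i) j) (q (c i') j')) ∨
      (∃ P : Fin N → Finset V, (∀ j, P j ⊆ Y j ∧ (P j).card ≤ t) ∧
        ∀ c ∈ Cf, ∃ j, ∃ p ∈ P j, E.G.Adj (a c j) p)

/-- Module `Net`: nets for a finite law. -/
def StNet : Prop :=
  ∀ (D : ℕ) (ε : ℝ), 0 < ε → ∃ t : ℕ, ∀ (V : Type) (G : SimpleGraph V), GIT.VC G D →
    ∀ (A : Finset V) (l : V → ℝ), (∀ v, 0 ≤ l v) →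
      ∃ Q : Finset V, (∀ q ∈ Q, q ∈ A ∧ l q ≠ 0) ∧ Q.card ≤ t ∧
        ∀ v, ε * ∑ u ∈ A, l u ≤ ∑ u ∈ A.filter (fun u => G.Adj v u), l u →
          0 < ∑ u ∈ A, l u → ∃ q ∈ Q, G.Adj v q

/-! ### Hubs -/

/-- Module `MC`: covers of minimal cost exist. -/
def StMC : Prop :=
  ∀ (V : Type) (E : Env V) (Y U : Set V) (b : ℕ), ∃ S : Set V, MC E Y U S b

/-- Module `Leaf`: private leaves. -/
def StLeaf : Prop :=
  ∀ (V : Type) (E : Env V) (k : ℕ) (M : Set V), 1 ≤ k → MC E Set.univ Set.univ M (4 * k) →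
    ∀ (n t : ℕ) (P : Finset V) (Q : Fin t → Finset V), (∀ p ∈ P, E.c p = n) →
      (∀ i, ∀ q ∈ Q i, q ∈ M ∧ E.c q = n) → (∀ i i', i ≠ i' → Disjoint (Q i) (Q i')) →
      (∀ i, 2 * P.card + 2 * k * t ≤ (Q i).card) →
        ∃ (q : Fin t → V) (w : Fin t → Fin k → V), (∀ i, q i ∈ Q i) ∧
          (∀ i l, E.G.Adj (q i) (w i l)) ∧ (∀ i l l', w i l = w i l' → l = l') ∧
          (∀ i l, w i l ∉ P ∧ ∀ p ∈ P, ¬ E.G.Adj p (w i l)) ∧
          (∀ i l, ∀ m ∈ M, E.G.Adj m (w i l) → m ∈ Q i) ∧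
          (∀ i i' l l', i ≠ i' → ¬ E.G.Adj (w i l) (w i' l'))

/-- Module `Star`: the width lemma (may assume `StLeaf`). -/
def StStar : Prop :=
  ∀ k : ℕ, 2 ≤ k → ∃ C : ℕ, 1 ≤ C ∧ ∀ (V : Type) (E : Env V) (D : ℕ) (L : ℕ → ℕ) (M : Set V),
    Base E k D L → MC E Set.univ Set.univ M (4 * k) → ∀ M' ⊆ M, Stb E M' → Star E M' k C

/-- Module `ChiM`: the hub set is small (may assume `StLeaf`, `StTool`, `StMC`, `StDeg`). -/
def StChiM : Prop :=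
  ∀ (V : Type) (E : Env V) (k D : ℕ) (L : ℕ → ℕ) (M : Set V),
    Base E k D L → MC E Set.univ Set.univ M (4 * k) → Sm E M

/-- Module `Hub`: a stable hub set seen by a big set (may assume `StMC`, `StStar`, `StChiM`,
`StDeg`). -/
def StHub : Prop :=
  ∀ (V : Type) (E : Env V) (k D : ℕ) (L : ℕ → ℕ), Base E k D L → ¬ Sm E Set.univ →
    ∃ (M : Set V) (C : ℕ), Hb E k D L M C ∧ ¬ Sm E {v | nb E M v ≠ ∅}

/-- Module `Tops` (may assume `StTool`). -/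
def StTops : Prop :=
  ∀ k D C : ℕ, ∃ n b : ℕ, ∀ (V : Type) (E : Env V) (L : ℕ → ℕ) (M : Set V), Hb E k D L M C →
    ∀ (z : V) (X : Finset V), (∀ x ∈ X, E.G.Adj z x) → ∃ P ⊆ X, P.card ≤ n ∧
      ∀ x ∈ X, ((nb E M x).filter (fun m => ∀ p ∈ P, ¬ E.G.Adj p m)).card ≤ b

/-- Module `SC`: sparse covers exist (may assume `StMC`, `StTops`). -/
def StSC : Prop :=
  ∀ k D C : ℕ, ∃ n1 b0 : ℕ, ∀ b1 ≥ b0, ∀ (V : Type) (E : Env V) (L : ℕ → ℕ) (M : Set V),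
    Hb E k D L M C → ∀ W : Set V, ∃ S : Set V, SC E M W S n1 b1

/-- Module `Spa`: sparse sets and their neighbourhoods are small (may assume `StDeg`). -/
def StSpa : Prop :=
  ∀ (V : Type) (E : Env V) (k D : ℕ) (L : ℕ → ℕ), Base E k D L → ∀ (S : Set V) (n : ℕ),
    Spr E S n → Sm E {v | v ∈ S ∨ nb E S v ≠ ∅}

/-- Module `LL`: the label lemma with exceptional incidences (may assume `StDeg`). -/
def StLL : Prop :=
  ∀ (V Λ : Type) (E : Env V) (k D : ℕ) (L : ℕ → ℕ), Base E k D L →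
    ∀ (q e B : ℕ) (lab : V → Λ) (W : Set V) (Q : Λ → Finset V) (exc : V → Finset V),
      (∀ l, (Q l).card ≤ q) → (∀ x, (exc x).card ≤ e) →
      (∀ x ∈ W, ∃ p ∈ Q (lab x), E.G.Adj x p) →
      (∀ x ∈ W, ∀ p ∈ Q (lab x), (((nb E W p).filter (fun y => p ∉ exc y)).image lab).card ≤ B) →
        Sm E W

/-! ### Thin laws -/

/-- Module `Fine`: the scale principle and the fine hubs. -/
def StFine : Prop :=
  ∀ k C : ℕ, ∃ δ : ℝ, 0 < δ ∧ δ ≤ 1 ∧ ∀ (V : Type) (E : Env V) (D : ℕ) (L : ℕ → ℕ) (M W : Set V),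
    Hb E k D L M C → ∀ (n : ℕ) (ν th : V → ℝ), Nu E W n ν →
      (∀ x ∈ W, E.c x = n → Ord (tm E ν) (nb E M x) C (th x)) →
        (∀ m ∈ M, E.c m = n → 4 * ∑ x ∈ (nb E Set.univ m).filter (fun x => th x ≤ δ * tm E ν m),
          ν x ≤ tm E ν m) ∧
        ∑ m ∈ (E.fib n).filter (fun m => m ∈ M ∧ tm E ν m ≤
          2 * ∑ x ∈ (nb E Set.univ m).filter (fun x => tm E ν m < th x), ν x), tm E ν m ≤ 2 * C

/-- Module `Nonf`: the hubs of one scale are covered by few vertices (may assume `StNet`). -/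
def StNonf : Prop :=
  ∀ k D C : ℕ, ∃ g : ℝ, 0 < g ∧ ∀ (V : Type) (E : Env V) (L : ℕ → ℕ) (M W : Set V),
    Hb E k D L M C → ∀ (n : ℕ) (ν : V → ℝ), Nu E W n ν → ∀ (T : ℝ) (X : Finset V), 0 < T →
      ∃ Y : Finset V, (∀ y ∈ Y, y ∈ X ∧ y ∈ W ∧ E.c y = n) ∧
        Y.card * T ≤ g * ∑ x ∈ X, ν x ∧
        ∀ m ∈ M, E.c m = n → T ≤ tm E ν m → tm E ν m < 2 * T →
          tm E ν m ≤ 4 * ∑ x ∈ (nb E Set.univ m).filter (fun x => x ∈ X), ν x →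
            ∃ y ∈ Y, E.G.Adj m y

/-- Module `SumT`: the sum over `S` (may assume `StFine`, `StNonf`). -/
def StSumT : Prop :=
  ∀ k D C n1 : ℕ, ∃ B0 : ℝ, 0 ≤ B0 ∧ ∀ C2 b1 : ℕ, 1 ≤ C2 → 2 * C2 ≤ b1 → ∀ (V : Type) (E : Env V)
    (L : ℕ → ℕ) (M W S : Set V), Hb E k D L M C → SC E M W S n1 b1 →
      (∀ x ∈ W, C ≤ (nb E M x).card) → ∀ (n : ℕ) (ν τ : V → ℝ), Nu E W n ν →
        (∀ s ∈ S, E.c s = n → Ord (tm E ν) (nb E M s) C2 (τ s)) →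
          ∑ s ∈ (E.fib n).filter (fun s => s ∈ S), τ s ≤ B0

/-- Module `MM`: thin laws by duality. -/
def StMM : Prop :=
  ∀ (B0 : ℝ) (C2 : ℕ), 0 ≤ B0 → 1 ≤ C2 → ∀ (V : Type) (E : Env V) (M W S : Set V),
    (∀ s ∈ S, C2 ≤ (nb E M s).card) →
      (∀ (n : ℕ) (ν τ : V → ℝ), Nu E W n ν →
        (∀ s ∈ S, E.c s = n → Ord (tm E ν) (nb E M s) C2 (τ s)) →
          ∑ s ∈ (E.fib n).filter (fun s => s ∈ S), τ s ≤ B0) →
        ∃ ρ : V → V → ℝ, Thin E M W S ρ C2 B0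

/-- Module `Thick`: few vertices see much of one law (may assume `StNet`, `StLL`). -/
def StThick : Prop :=
  ∀ (k D C C2 : ℕ) (B0 ε : ℝ), 0 < ε → 2 * C ≤ ε * C2 → ∀ (V : Type) (E : Env V) (L : ℕ → ℕ)
    (M W S : Set V) (ρ : V → V → ℝ), Hb E k D L M C → Thin E M W S ρ C2 B0 →
      Sm E {y | y ∈ W ∧ ∃ s ∈ S, ε ≤ ∑ m ∈ nb E M y, ρ s m}

/-! ### The bounded case -/

/-- Module `Sun`: a sunflower lemma. -/
def StSun : Prop :=
  ∀ r t : ℕ, ∃ n : ℕ, ∀ (V : Type) (F : Finset (Finset V)), (∀ A ∈ F, A.card = r) → n < F.card →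
    ∃ (Y : Finset V) (A : Fin t → Finset V), (∀ i, A i ∈ F) ∧ Y.card < r ∧ (∀ i, Y ⊆ A i) ∧
      ∀ i j, i ≠ j → A i ∩ A j = Y

/-- Module `Lbd`: the label sets are bounded (may assume `StSun`). -/
def StLbd : Prop :=
  ∀ n2 r e : ℕ, ∃ ℓ : ℕ, ∀ (V : Type) (E : Env V) (M S W : Set V) (K : ℕ), 2 * e ≤ K →
    Cx E M S W n2 r e K → ∀ x ∈ W, (Lb E M S r e x).card ≤ ℓ

/-- Module `Rbd`: every vertex sees boundedly many labels (may assume `StSun`, `StDeg`). -/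
def StRbd : Prop :=
  ∀ k C n2 r e : ℕ, ∃ ℓ K0 : ℕ, ∀ (V : Type) (E : Env V) (D : ℕ) (L : ℕ → ℕ) (M S W : Set V)
    (K : ℕ), K0 ≤ K → Hb E k D L M C → Cx E M S W n2 r e K →
      ∀ z, ((nb E W z).biUnion (Lb E M S r e)).card ≤ ℓ

/-- Module `F4`: the vertices with a hub in a given neighbourhood form a small set (may assume
`StTool`, `StMC`, `StDeg`). -/
def StF4 : Prop :=
  ∀ (k D C : ℕ) (L : ℕ → ℕ), ∃ n : ℕ, ∀ (V : Type) (E : Env V) (M : Set V), Hb E k D L M C →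
    ∀ s, Cl E {x | ∃ m ∈ nb E M x, E.G.Adj s m} n

/-- Module `HM`: hereditary minimality (may assume `StDeg`, `StUni`, `StFcl`). -/
def StHM : Prop :=
  ∀ (V : Type) (E : Env V) (W0 : Set V) (Lf : V → Finset V) (ℓ0 ℓ1 c0 : ℕ), ¬ Sm E W0 →
    (∀ x ∈ W0, (Lf x).Nonempty ∧ (Lf x).card ≤ ℓ0 ∧ ∀ s ∈ Lf x, E.c s = E.c x) →
    (∀ z, ((nb E W0 z).biUnion Lf).card ≤ ℓ1) → (∀ s, Cl E {x | x ∈ W0 ∧ s ∈ Lf x} c0) →
      ∃ W ⊆ W0, ¬ Sm E W ∧ ∃ (q ρ : ℕ) (Li : Fin q → V → V) (Ra : Fin ρ → V → V)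
        (I : Fin ρ → Fin q → Prop), (∀ x ∈ W, Lf x = Finset.univ.image (fun i => Li i x)) ∧
          Lab E W q ρ ℓ1 Li Ra I

/-- Module `Wild`: the wild case contains the tree. -/
def StWild : Prop :=
  ∀ (V : Type) (E : Env V) (W : Set V) (ρ : ℕ) (lb : V → V) (Ra : Fin ρ → V → V),
    (∀ a b c, E.G.Adj a b → E.G.Adj b c → ¬ E.G.Adj a c) →
    (∀ x ∈ W, ∀ y ∈ W, E.G.Adj x y → ∃ a, lb y = Ra a x) → ¬ Sm E W →
    (∀ a, ∀ W' ⊆ W, ∀ K : ℕ, Sm E {z | z ∈ W' ∧ ((nb E W' z).image (Ra a)).card < K}) →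
      ∀ k : ℕ, ∃ s m x w, T3 E.G k s m x w

/-- Module `HT1`: bounded labels at the hubs, relative to one root (may assume `StTool`). -/
def StHT1 : Prop :=
  ∀ k D C q ρ b : ℕ, ∃ t B : ℕ, ∀ (V : Type) (E : Env V) (L : ℕ → ℕ) (M W W' : Set V)
    (Li : Fin q → V → V) (Ra : Fin ρ → V → V) (I : Fin ρ → Fin q → Prop), Hb E k D L M C →
      Lab E W q ρ b Li Ra I → W' ⊆ W → ∀ (a : Fin ρ) (i i' : Fin q),
        (∀ x ∈ W', k ≤ ((nb E W x).filter (fun w => Li i' w = Ra a x)).card) →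
          ∀ s, ∃ Q ⊆ nb E M s, Q.card ≤ t ∧ ∀ m ∈ nb E M s,
            (((nb E W' m).filter (fun x => Li i x = s ∧ ∀ p ∈ Q, ¬ E.G.Adj p x)).image
              (Ra a)).card < B

/-- Module `HT2`: typical vertices do not see bounded hub sets attached to their labels (may assume
`StHT1`, `StLL`). -/
def StHT2 : Prop :=
  ∀ (k D C q ρ b : ℕ) (V : Type) (E : Env V) (L : ℕ → ℕ) (M W : Set V)
    (Li : Fin q → V → V) (Ra : Fin ρ → V → V) (I : Fin ρ → Fin q → Prop), Hb E k D L M C →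
      Lab E W q ρ b Li Ra I → ∀ e : ℕ,
        (∀ x ∈ W, ((nb E M x).filter (fun m => ∀ i, ¬ E.G.Adj (Li i x) m)).card ≤ e) →
          ∀ (a : Fin ρ) (Q : V → Finset V) (q0 : ℕ), (∀ s, Q s ⊆ nb E M s ∧ (Q s).card ≤ q0) →
            Sm E {w | w ∈ W ∧ ∃ p ∈ Q (Ra a w), E.G.Adj w p}

/-- Module `Tame`: the tame case (may assume `StTool`, `StMC`, `StLL`, `StDeg`, `StSpa`). -/
def StTame : Prop :=
  ∀ (k D C q ρ b : ℕ) (V : Type) (E : Env V) (L : ℕ → ℕ) (M W : Set V)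
    (Li : Fin q → V → V) (Ra : Fin ρ → V → V) (I : Fin ρ → Fin q → Prop), Hb E k D L M C →
      Lab E W q ρ b Li Ra I → ∀ (K : ℕ) (a : Fin ρ) (i : Fin q), I a i →
        (∀ z ∈ W, ((nb E W z).image (Ra a)).card ≤ K) →
        (∀ (Q : V → Finset V) (q0 : ℕ), (∀ s, Q s ⊆ nb E M s ∧ (Q s).card ≤ q0) →
          Sm E {w | w ∈ W ∧ ∃ p ∈ Q (Ra a w), E.G.Adj w p}) →
        (∀ x ∈ W, C ≤ ((nb E M x).filter (fun m => E.G.Adj (Li i x) m)).card) →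
        (∀ x ∈ W, ∀ y ∈ W, ¬ E.G.Adj (Li i x) y) → Sm E W

/-- Module `BC`: the bounded case (may assume `StSpa`, `StLbd`, `StRbd`, `StF4`, `StHM`, `StWild`,
`StHT2`, `StTame`). -/
def StBC : Prop :=
  ∀ (V : Type) (E : Env V) (k D : ℕ) (L : ℕ → ℕ) (M : Set V) (C : ℕ), Hb E k D L M C →
    ∀ (S : Set V) (n2 : ℕ), Spr E S n2 → ∀ (r e : ℕ) (W : Set V),
      (∀ x ∈ W, (nb E M x).Nonempty ∧ ∃ A : Finset V, A.card ≤ r ∧ Cv E M S e x A) → Sm E W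

/-! ### The unbounded case -/

/-- The situation after `j` steps. -/
structure Inv {V : Type} (E : Env V) (M : Set V) (n1 C2 K : ℕ) (ε : ℝ) (j : ℕ) (W S Mj : Set V)
    (σ : Fin j → V → V) (μ : Fin j → V → V → ℝ) : Prop where
  big : ¬ Sm E W
  sub : Mj ⊆ M
  spr : Spr E S (j * n1)
  sig : ∀ m ∈ Mj, ∀ l, σ l m ∈ S ∧ E.G.Adj m (σ l m)
  nn : ∀ l m p, 0 ≤ μ l m p
  sup : ∀ m ∈ Mj, ∀ l p, μ l m p ≠ 0 → p ∈ nb E M (σ l m)
  one : ∀ m ∈ Mj, ∀ l, ∑ p ∈ nb E M (σ l m), μ l m p = 1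
  atm : ∀ m ∈ Mj, ∀ l p, μ l m p * C2 ≤ 1
  musig : ∀ m ∈ Mj, ∀ l l', l ≠ l' → ∑ p ∈ nb E M (σ l' m), μ l m p ≤ ε
  muW : ∀ m ∈ Mj, ∀ l, ∀ y ∈ W, ∑ p ∈ nb E M y, μ l m p ≤ ε
  noc : ∀ x ∈ W, ∀ A : Finset V, A.card ≤ K → ¬ Cv E Mj S K x A

/-- Module `Step`: one step (may assume `StSC`, `StSumT`, `StMM`, `StThick`, `StBC`). -/
def StStep : Prop :=
  ∀ k D C : ℕ, 2 ≤ k → ∃ n1 : ℕ, ∀ C2 : ℕ, 4 * k * C ≤ C2 → 1 ≤ C2 → ∃ K0 : ℕ, ∀ K ≥ K0,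
    ∀ (V : Type) (E : Env V) (L : ℕ → ℕ) (M : Set V), Hb E k D L M C →
      ∀ j < k, ∀ (W S Mj : Set V) (σ : Fin j → V → V) (μ : Fin j → V → V → ℝ),
        Inv E M n1 C2 K (1 / (2 * k)) j W S Mj σ μ →
          ∃ (W' S' Mj' : Set V) (σ' : Fin (j + 1) → V → V) (μ' : Fin (j + 1) → V → V → ℝ),
            Inv E M n1 C2 K (1 / (2 * k)) (j + 1) W' S' Mj' σ' μ'

/-- Module `UC`: hub sets are seen by small sets only (may assume `StStep`). -/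
def StUC : Prop :=
  ∀ (V : Type) (E : Env V) (k D : ℕ) (L : ℕ → ℕ) (M : Set V) (C : ℕ), Hb E k D L M C →
    Sm E {v | nb E M v ≠ ∅}

/-- The infinite form (may assume `StHub`, `StUC`). -/
def StInf : Prop :=
  ∀ (V : Type) (E : Env V) (k D : ℕ) (L : ℕ → ℕ), Base E k D L → Sm E Set.univ

/-! ### Finite graphs -/

/-- Module `Pat`: the tree as a graph. -/
def StPat : Prop :=
  ∀ k : ℕ, ∃ (U : Type) (_ : Fintype U) (F : SimpleGraph U), F.IsAcyclic ∧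
    ∀ (V : Type) (G : SimpleGraph V), Nonempty (F ↪g G) → ∃ s m x w, T3 G k s m x w

/-- Module `Cls`: from finite graphs to the infinite graph (may assume `StPat` and
`ILT.all`, `GIT.vc_thm`). -/
def StCls : Prop :=
  ∀ k : ℕ, 2 ≤ k → (∀ n : ℕ, ∃ (V : Type) (_ : Finite V) (G : SimpleGraph V), G.CliqueFree 3 ∧
    (∀ s m x w, ¬ T3 G k s m x w) ∧ ¬ G.Colorable n) →
      ∃ (V : Type) (E : Env V) (D : ℕ) (L : ℕ → ℕ), Base E k D L ∧ ¬ Sm E Set.univ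

/-- The finite form (may assume `StInf`, `StCls`). -/
def StFin : Prop :=
  ∀ k : ℕ, ∃ c : ℕ, ∀ (V : Type) [Finite V] (G : SimpleGraph V), G.CliqueFree 3 →
    (∀ s m x w, ¬ T3 G k s m x w) → G.Colorable c

/-- Module `Fst`: forests all of whose components have radius at most three (may assume
`StFin`). -/
def StFst : Prop :=
  ∀ (U : Type) [Finite U] (F : SimpleGraph U), F.IsAcyclic →
    (∀ v, ∃ r, F.Reachable v r ∧ ∀ u, F.Reachable r u → F.dist r u ≤ 3) →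
      ∃ c : ℕ, ∀ (V : Type) [Finite V] (G : SimpleGraph V), G.CliqueFree 3 →
        IsEmpty (F ↪g G) → G.Colorable c

end Pool.Agent.Lib.GR3
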